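import Mathlib

namespace Pool.Agent.Results.MP_8ccf7f_al.NotUDF

open TensorProduct

universe u v w

section Defs

/-- `R`-bilinear multiplications on `R ⊗ A`. -/
abbrev Mult (k : Type u) [Field k] (R : Type u) [CommRing R] [Algebra k R]
    (A : Type w) [Ring A] [Algebra k A] : Type (max u w) :=
  (R ⊗[k] A) →ₗ[R] (R ⊗[k] A) →ₗ[R] (R ⊗[k] A)

/-- `x ≡ y` modulo the ideal `I` of `R`, in an `R`-module `M`. -/
def CongrMod {R : Type u} [CommRing R] (I : Ideal R) {M : Type w} [AddCommGroup M] [Module R M]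
    (x y : M) : Prop :=
  x - y ∈ I • (⊤ : Submodule R M)

/-- `m` is an `R`-deformation of the unital associative `k`-algebra `A` (with `I` the maximal
ideal of `R`): an `R`-bilinear associative multiplication on `R ⊗ A` with unit `1 ⊗ 1` which
reduces modulo `I` to the multiplication of `A`. -/
structure IsDeformation (k : Type u) [Field k] (R : Type u) [CommRing R] [Algebra k R] (I : Ideal R)
    (A : Type u) [Ring A] [Algebra k A] (m : Mult k R A) : Prop where
  assoc : ∀ x y z, m (m x y) z = m x (m y z)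
  one_left : ∀ x, m 1 x = x
  one_right : ∀ x, m x 1 = x
  reduces : ∀ x y, CongrMod I (m x y) (x * y)

/-- Two multiplications on `R ⊗ A` are equivalent if an `R`-linear automorphism of `R ⊗ A` that is
the identity modulo `I` carries one to the other. -/
def Equivalent (k : Type u) [Field k] (R : Type u) [CommRing R] [Algebra k R] (I : Ideal R)
    (A : Type u) [Ring A] [Algebra k A] (m m' : Mult k R A) : Prop :=
  ∃ φ : (R ⊗[k] A) ≃ₗ[R] (R ⊗[k] A),
    (∀ x, CongrMod I (φ x) x) ∧ ∀ x y, φ (m x y) = m' (φ x) (φ y)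

/-- `(Δ ⊗ id) F`, as an element of `C ⊗ (C ⊗ C)`. -/
noncomputable def comulLeft {R : Type u} [CommRing R] {C : Type v} [Ring C] [Bialgebra R C]
    (F : C ⊗[R] C) : C ⊗[R] (C ⊗[R] C) :=
  Algebra.TensorProduct.assoc R R R C C C
    (Algebra.TensorProduct.map (Bialgebra.comulAlgHom R C) (AlgHom.id R C) F)

/-- `(id ⊗ Δ) F`. -/
noncomputable def comulRight {R : Type u} [CommRing R] {C : Type v} [Ring C] [Bialgebra R C]
    (F : C ⊗[R] C) : C ⊗[R] (C ⊗[R] C) :=
  Algebra.TensorProduct.map (AlgHom.id R C) (Bialgebra.comulAlgHom R C) F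

/-- `F ⊗ 1`, as an element of `C ⊗ (C ⊗ C)`. -/
noncomputable def tensorOne {R : Type u} [CommRing R] {C : Type v} [Ring C] [Bialgebra R C]
    (F : C ⊗[R] C) : C ⊗[R] (C ⊗[R] C) :=
  Algebra.TensorProduct.assoc R R R C C C (F ⊗ₜ[R] (1 : C))

/-- A twisting element of the `R`-bialgebra `C`:
`[(Δ ⊗ id)F](F ⊗ 1) = [(id ⊗ Δ)F](1 ⊗ F)` and `(ε ⊗ id)F = 1 = (id ⊗ ε)F`. -/
structure IsTwisting (R : Type u) [CommRing R] (C : Type v) [Ring C] [Bialgebra R C]
    (F : C ⊗[R] C) : Prop where
  twist : comulLeft F * tensorOne F = comulRight F * ((1 : C) ⊗ₜ[R] F)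
  counit_left : Algebra.TensorProduct.map (Bialgebra.counitAlgHom R C) (AlgHom.id R C) F = 1
  counit_right : Algebra.TensorProduct.map (AlgHom.id R C) (Bialgebra.counitAlgHom R C) F = 1

/-- A universal deformation formula over `R` based on the `k`-bialgebra `B`: a twisting element of
the `R`-bialgebra `R ⊗ B` which is congruent to `1 ⊗ 1` modulo `I`. -/
structure IsUDF (k : Type u) [Field k] (R : Type u) [CommRing R] [Algebra k R] (I : Ideal R)
    (B : Type v) [Ring B] [Bialgebra k B] (F : (R ⊗[k] B) ⊗[R] (R ⊗[k] B)) : Prop where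
  twisting : IsTwisting R (R ⊗[k] B) F
  congr_one : CongrMod I F 1

/-- The bilinear map `(b, c) ↦ ((x, y) ↦ (ρ b x) * (ρ c y))`, extended linearly to `B ⊗ B`:
`act2 ρ F x y = μ(F (x ⊗ y))`. -/
noncomputable def act2 {R : Type u} [CommRing R] {C : Type v} [AddCommGroup C] [Module R C]
    {M : Type w} [Ring M] [Algebra R M] (ρ : C →ₗ[R] Module.End R M) :
    C ⊗[R] C →ₗ[R] (M →ₗ[R] M →ₗ[R] M) :=
  TensorProduct.lift (LinearMap.mk₂ R (fun b c => (LinearMap.mul R M).compl₁₂ (ρ b) (ρ c))
    (by intro b b' c; ext x y; simp)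
    (by intro r b c; ext x y; simp)
    (by intro b c c'; ext x y; simp [mul_add])
    (by intro r b c; ext x y; simp))

/-- A left `B`-module algebra structure on `A`, given by the representation
`ρ : B → End_k(A)`. -/
structure IsModuleAlgebra (k : Type u) [Field k] (B : Type v) [Ring B] [Bialgebra k B]
    (A : Type u) [Ring A] [Algebra k A] (ρ : B →ₐ[k] Module.End k A) : Prop where
  map_mul : ∀ b a a', ρ b (a * a') = act2 ρ.toLinearMap (Coalgebra.comul (R := k) b) a a'
  map_one : ∀ b, ρ b 1 = Coalgebra.counit (R := k) b • (1 : A)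

/-- The `R`-linear extension `R ⊗ B → End_R(R ⊗ A)`, `r ⊗ b ↦ r • (id ⊗ ρ b)`, of the action
`ρ` of `B` on `A`. -/
noncomputable def extend {k : Type u} [Field k] (R : Type u) [CommRing R] [Algebra k R]
    {B : Type v} [Ring B] [Algebra k B]
    {A : Type u} [Ring A] [Algebra k A] (ρ : B →ₐ[k] Module.End k A) :
    (R ⊗[k] B) →ₗ[R] Module.End R (R ⊗[k] A) :=
  LinearMap.liftBaseChange R ((LinearMap.baseChangeHom k R A A) ∘ₗ ρ.toLinearMap)

/-- The multiplication `a * b = μ(F (a ⊗ b))` on `R ⊗ A`, extended `R`-linearly. -/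
noncomputable def udfMul {k : Type u} [Field k] {R : Type u} [CommRing R] [Algebra k R]
    {B : Type v} [Ring B] [Bialgebra k B] {A : Type u} [Ring A] [Algebra k A]
    (ρ : B →ₐ[k] Module.End k A) (F : (R ⊗[k] B) ⊗[R] (R ⊗[k] B)) : Mult k R A :=
  act2 (extend R ρ) F

/-- The multiplication `m` on `R ⊗ A` is not equivalent to one coming from a universal deformation
formula: for all bialgebras `B` (in universe `v`), all `B`-module algebra structures `ρ` on `A` and
all UDFs `F` over `R` based on `B`, `m` is not equivalent to `a * b = μ(F (a ⊗ b))`. -/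
def NotFromUDF (k : Type u) [Field k] (R : Type u) [CommRing R] [Algebra k R] (I : Ideal R)
    (A : Type u) [Ring A] [Algebra k A] (m : Mult k R A) : Prop :=
  ∀ (B : Type v) [Ring B] [Bialgebra k B] (ρ : B →ₐ[k] Module.End k A)
    (F : (R ⊗[k] B) ⊗[R] (R ⊗[k] B)),
    IsModuleAlgebra k B A ρ → IsUDF k R I B F → ¬ Equivalent k R I A m (udfMul ρ F)

/-- `R` is a finite-dimensional local `k`-algebra with maximal ideal `I` and residue field `k`
(such an `R` is complete and Noetherian, and completed tensor products with `R` over `k` are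
ordinary tensor products). -/
structure IsFiniteLocal (k : Type u) [Field k] (R : Type u) [CommRing R] [Algebra k R]
    (I : Ideal R) : Prop where
  isLocal : IsLocalRing R
  max : IsLocalRing.maximalIdeal R = I
  fin : Module.Finite k R
  residue : Function.Bijective (algebraMap k (R ⧸ I))

end Defs

/-- The local `k`-algebra `k[t]/(t²)` (dual numbers over `k`). -/
def Dual (k : Type u) [Field k] : Type u := DualNumber k

noncomputable instance (k : Type u) [Field k] : CommRing (Dual k) :=
  inferInstanceAs (CommRing (DualNumber k))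

noncomputable instance (k : Type u) [Field k] : Algebra k (Dual k) :=
  inferInstanceAs (Algebra k (DualNumber k))

/-- The class of `t` in `k[t]/(t²)`. -/
noncomputable def tt (k : Type u) [Field k] : Dual k := (DualNumber.eps : DualNumber k)

section Parts

variable {k : Type u} [Field k] {A : Type w} [Ring A] [Algebra k A]

noncomputable def dfst : Dual k →ₐ[k] k := TrivSqZeroExt.fstHom k k k

noncomputable def dsnd : Dual k →ₗ[k] k := TrivSqZeroExt.sndHom k k

theorem dsnd_mul (r s : Dual k) : dsnd (r * s) = dfst r * dsnd s + dsnd r * dfst s :=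
  DualNumber.snd_mul (R := k) r s

@[simp] theorem dsnd_one : dsnd (1 : Dual k) = 0 := TrivSqZeroExt.snd_one (R := k) (M := k)

@[simp] theorem dfst_tt : dfst (tt k) = 0 := DualNumber.fst_eps

@[simp] theorem dsnd_tt : dsnd (tt k) = 1 := DualNumber.snd_eps

theorem dual_ext {r s : Dual k} (h1 : dfst r = dfst s) (h2 : dsnd r = dsnd s) : r = s :=
  TrivSqZeroExt.ext h1 h2

@[simp] theorem tt_mul_tt : tt k * tt k = 0 := by
  apply dual_ext <;> simp [dsnd_mul]

/-- constant part -/
noncomputable def re : (Dual k) ⊗[k] A →ₗ[k] A :=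
  (TensorProduct.lid k A).toLinearMap ∘ₗ LinearMap.rTensor A dfst.toLinearMap

/-- `t`-part -/
noncomputable def im : (Dual k) ⊗[k] A →ₗ[k] A :=
  (TensorProduct.lid k A).toLinearMap ∘ₗ LinearMap.rTensor A dsnd

@[simp] theorem re_tmul (r : Dual k) (a : A) : re (r ⊗ₜ[k] a) = dfst r • a := by
  simp [re]

@[simp] theorem im_tmul (r : Dual k) (a : A) : im (r ⊗ₜ[k] a) = dsnd r • a := by
  simp [im]

theorem re_smul (r : Dual k) (x : (Dual k) ⊗[k] A) :
    re (r • x) = dfst r • re x := by
  induction x using TensorProduct.induction_on with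
  | zero => simp
  | tmul s a => simp [TensorProduct.smul_tmul', mul_smul]
  | add x y hx hy => rw [smul_add, map_add, hx, hy, map_add, smul_add]

theorem im_smul (r : Dual k) (x : (Dual k) ⊗[k] A) :
    im (r • x) = dfst r • im x + dsnd r • re x := by
  induction x using TensorProduct.induction_on with
  | zero => simp
  | tmul s a =>
    simp only [TensorProduct.smul_tmul', im_tmul, re_tmul, smul_eq_mul, dsnd_mul,
      add_smul, mul_smul]
  | add x y hx hy => rw [smul_add, map_add, hx, hy, map_add, map_add, smul_add, smul_add]; abel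

theorem re_mul (x y : (Dual k) ⊗[k] A) : re (x * y) = re x * re y := by
  induction x using TensorProduct.induction_on with
  | zero => simp
  | tmul r a =>
    induction y using TensorProduct.induction_on with
    | zero => simp
    | tmul s b =>
      simp only [Algebra.TensorProduct.tmul_mul_tmul, re_tmul, map_mul, smul_mul_assoc,
        mul_smul_comm, mul_smul]
      rw [smul_comm]
    | add y z hy hz => rw [mul_add, map_add, hy, hz, map_add, mul_add]
  | add x z hx hz => rw [add_mul, map_add, hx, hz, map_add, add_mul]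

theorem im_mul (x y : (Dual k) ⊗[k] A) : im (x * y) = re x * im y + im x * re y := by
  induction x using TensorProduct.induction_on with
  | zero => simp
  | tmul r a =>
    induction y using TensorProduct.induction_on with
    | zero => simp
    | tmul s b =>
      simp only [Algebra.TensorProduct.tmul_mul_tmul, im_tmul, re_tmul, dsnd_mul,
        add_smul, smul_mul_assoc, mul_smul_comm, mul_smul]
      rw [smul_comm (dfst r), smul_comm (dsnd r)]
    | add y z hy hz => rw [mul_add, map_add, hy, hz, map_add, map_add, mul_add, mul_add]; abel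
  | add x z hx hz => rw [add_mul, map_add, hx, hz, map_add, map_add, add_mul, add_mul]; abel

theorem decomp (x : (Dual k) ⊗[k] A) :
    x = (1 : Dual k) ⊗ₜ[k] re x + (tt k) • ((1 : Dual k) ⊗ₜ[k] im x) := by
  induction x using TensorProduct.induction_on with
  | zero => simp
  | tmul r a =>
    rw [re_tmul, im_tmul, TensorProduct.smul_tmul', smul_eq_mul, mul_one,
      ← TensorProduct.smul_tmul, ← TensorProduct.smul_tmul, ← TensorProduct.add_tmul]
    congr 1
    apply dual_ext <;> simp
  | add x y hx hy =>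
    conv_lhs => rw [hx, hy]
    rw [map_add, map_add, TensorProduct.tmul_add, TensorProduct.tmul_add, smul_add]
    abel

theorem fst_of_mem {r : Dual k} (hr : r ∈ Ideal.span {tt k}) : dfst r = 0 := by
  obtain ⟨c, rfl⟩ := Ideal.mem_span_singleton'.mp hr
  simp

theorem re_of_mem {x : (Dual k) ⊗[k] A}
    (hx : x ∈ Ideal.span {tt k} • (⊤ : Submodule (Dual k) ((Dual k) ⊗[k] A))) : re x = 0 := by
  refine Submodule.smul_induction_on hx ?_ ?_
  · intro r hr n _
    rw [re_smul, fst_of_mem hr, zero_smul]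
  · intro x y hx hy
    rw [map_add, hx, hy, add_zero]

end Parts

section Construction

variable (k : Type u) [Field k]

/-- The vector space with basis `e_0, e_1, …` -/
abbrev V : Type u := ℕ →₀ k

/-- The square-zero extension `A = k ⊕ V`. -/
abbrev AA : Type u := TrivSqZeroExt k (ℕ →₀ k)

/-- `⟨v, w⟩ = ∑ v_i w_i` -/
noncomputable def pair : (ℕ →₀ k) →ₗ[k] (ℕ →₀ k) →ₗ[k] k :=
  Finsupp.linearCombination k (fun i => (Finsupp.lapply i : (ℕ →₀ k) →ₗ[k] k))

theorem pair_single (v : ℕ →₀ k) (i : ℕ) : pair k v (Finsupp.single i 1) = v i := by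
  classical
  unfold pair
  rw [Finsupp.linearCombination_apply, Finsupp.sum, LinearMap.sum_apply]
  simp only [LinearMap.smul_apply, Finsupp.lapply_apply, smul_eq_mul]
  rw [Finset.sum_eq_single i]
  · simp
  · intro j _ hj
    rw [Finsupp.single_eq_of_ne hj]; simp
  · intro hi
    rw [Finsupp.notMem_support_iff.mp hi, zero_mul]

/-- `μ₁(a + v, b + w) = ⟨v, w⟩ e_0` -/
noncomputable def mu1 : AA k →ₗ[k] AA k →ₗ[k] AA k :=
  ((pair k).compl₁₂ (TrivSqZeroExt.sndHom k (ℕ →₀ k)) (TrivSqZeroExt.sndHom k (ℕ →₀ k))).compr₂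
    ((TrivSqZeroExt.inrHom k (ℕ →₀ k)) ∘ₗ (LinearMap.toSpanSingleton k (ℕ →₀ k) (Finsupp.single 0 1)))

theorem mu1_apply (a b : AA k) :
    mu1 k a b = TrivSqZeroExt.inr (pair k a.snd b.snd • Finsupp.single 0 1) := by
  simp [mu1]

theorem mu1_one_left (a : AA k) : mu1 k 1 a = 0 := by simp [mu1_apply]

theorem mu1_one_right (a : AA k) : mu1 k a 1 = 0 := by simp [mu1_apply]

theorem cocycle (a b c : AA k) :
    mu1 k a b * c + mu1 k (a * b) c = a * mu1 k b c + mu1 k a (b * c) := by
  simp only [mu1_apply]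
  apply TrivSqZeroExt.ext
  · simp
  · simp only [TrivSqZeroExt.snd_add, TrivSqZeroExt.snd_mul, TrivSqZeroExt.fst_inr,
      TrivSqZeroExt.snd_inr, zero_smul, zero_add, add_zero, MulOpposite.op_zero,
      op_smul_eq_smul, map_add, map_smul, LinearMap.add_apply, LinearMap.smul_apply, smul_smul,
      ← add_smul, smul_eq_mul]
    congr 1
    ring

/-- The multiplication `x y + t μ₁(x, y)` on `k[t]/(t²) ⊗ A`. -/
noncomputable def mm : ((Dual k) ⊗[k] AA k) →ₗ[Dual k] ((Dual k) ⊗[k] AA k) →ₗ[Dual k]
    ((Dual k) ⊗[k] AA k) :=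
  LinearMap.mul (Dual k) ((Dual k) ⊗[k] AA k) +
    tt k • (LinearMap.BilinMap.baseChange (Dual k) (mu1 k))

theorem mm_tmul (r s : Dual k) (a b : AA k) :
    mm k (r ⊗ₜ a) (s ⊗ₜ b) = (r * s) ⊗ₜ (a * b) + (tt k * (r * s)) ⊗ₜ (mu1 k a b) := by
  simp [mm, LinearMap.BilinMap.baseChange_tmul, TensorProduct.smul_tmul']

theorem mm_isDeformation : IsDeformation k (Dual k) (Ideal.span {tt k}) (AA k) (mm k) where
  assoc x y z := by
    induction x using TensorProduct.induction_on with
    | zero => simp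
    | add x x' hx hx' => simp only [map_add, LinearMap.add_apply, hx, hx']
    | tmul r a =>
      induction y using TensorProduct.induction_on with
      | zero => simp
      | add y y' hy hy' => simp only [map_add, LinearMap.add_apply, hy, hy']
      | tmul s b =>
        induction z using TensorProduct.induction_on with
        | zero => simp
        | add z z' hz hz' => simp only [map_add, hz, hz']
        | tmul u c =>
          rw [mm_tmul, mm_tmul, map_add, map_add, LinearMap.add_apply, mm_tmul, mm_tmul, mm_tmul,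
            mm_tmul]
          have e1 : tt k * (tt k * (r * s) * u) = 0 := by
            rw [← mul_assoc, ← mul_assoc, tt_mul_tt, zero_mul, zero_mul]
          have e2 : tt k * (r * (tt k * (s * u))) = 0 := by
            have : tt k * (r * (tt k * (s * u))) = (tt k * tt k) * (r * (s * u)) := by ring
            rw [this, tt_mul_tt, zero_mul]
          have e3 : r * (tt k * (s * u)) = tt k * (r * s * u) := by ring
          have e4 : tt k * (r * (s * u)) = tt k * (r * s * u) := by ring
          have e5 : tt k * (r * s) * u = tt k * (r * s * u) := by ring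
          rw [e1, e2, e3, e4, e5, TensorProduct.zero_tmul, TensorProduct.zero_tmul, add_zero,
            add_zero, mul_assoc r s u, mul_assoc a b c, add_assoc, add_assoc,
            ← TensorProduct.tmul_add, ← TensorProduct.tmul_add]
          congr 2
          rw [add_comm, cocycle, add_comm]
  one_left x := by
    rw [Algebra.TensorProduct.one_def]
    induction x using TensorProduct.induction_on with
    | zero => simp
    | add x y hx hy => rw [map_add, hx, hy]
    | tmul r a => rw [mm_tmul]; simp [mu1_one_left]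
  one_right x := by
    rw [Algebra.TensorProduct.one_def]
    induction x using TensorProduct.induction_on with
    | zero => simp
    | add x y hx hy => rw [map_add, LinearMap.add_apply, hx, hy]
    | tmul r a => rw [mm_tmul]; simp [mu1_one_right]
  reduces x y := by
    have : mm k x y - x * y = tt k • (LinearMap.BilinMap.baseChange (Dual k) (mu1 k)) x y := by
      simp [mm]
    rw [CongrMod, this]
    exact Submodule.smul_mem_smul (Ideal.mem_span_singleton_self _) trivial

end Construction

section Main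

theorem act2_tmul {R : Type u} [CommRing R] {C : Type v} [AddCommGroup C] [Module R C]
    {M : Type w} [Ring M] [Algebra R M] (ρ : C →ₗ[R] Module.End R M) (b c : C) (x y : M) :
    act2 ρ (b ⊗ₜ c) x y = ρ b x * ρ c y := by
  simp [act2]

variable {k : Type u} [Field k]

/-- finite rank property of the universal deformation formula products -/
theorem finite_rank {B : Type v} [Ring B] [Bialgebra k B] (ρ : B →ₐ[k] Module.End k (AA k))
    (F : ((Dual k) ⊗[k] B) ⊗[Dual k] ((Dual k) ⊗[k] B)) :
    ∃ (ι : Type) (_ : Finite ι) (L : (ℕ →₀ k) →ₗ[k] (ι → k)), ∀ v, L v = 0 → ∀ w,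
      (im (act2 (extend (Dual k) ρ) F ((1 : Dual k) ⊗ₜ[k] (TrivSqZeroExt.inr v : AA k))
        ((1 : Dual k) ⊗ₜ[k] (TrivSqZeroExt.inr w : AA k)))).snd 0 = 0 := by
  induction F using TensorProduct.induction_on with
  | zero =>
    exact ⟨PEmpty, inferInstance, 0, fun v _ w => by simp⟩
  | add F G hF hG =>
    obtain ⟨ι, hι, L, hL⟩ := hF
    obtain ⟨κ, hκ, M, hM⟩ := hG
    refine ⟨ι ⊕ κ, inferInstance, LinearMap.pi (Sum.elim (fun i => LinearMap.proj i ∘ₗ L)
      (fun i => LinearMap.proj i ∘ₗ M)), fun v hv w => ?_⟩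
    have h1 : L v = 0 := by
      funext i
      simpa using congrFun hv (Sum.inl i)
    have h2 : M v = 0 := by
      funext i
      simpa using congrFun hv (Sum.inr i)
    rw [map_add, LinearMap.add_apply, LinearMap.add_apply, map_add, TrivSqZeroExt.snd_add,
      Finsupp.add_apply, hL v h1 w, hM v h2 w, add_zero]
  | tmul β γ =>
    set f : AA k →ₗ[k] AA k := re ∘ₗ ((extend (Dual k) ρ β).restrictScalars k) ∘ₗ
      (TensorProduct.mk k (Dual k) (AA k) 1) with hf
    set f' : AA k →ₗ[k] AA k := im ∘ₗ ((extend (Dual k) ρ β).restrictScalars k) ∘ₗ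
      (TensorProduct.mk k (Dual k) (AA k) 1) with hf'
    set L : (ℕ →₀ k) →ₗ[k] (Fin 4 → k) := LinearMap.pi ![
      (TrivSqZeroExt.fstHom k k (ℕ →₀ k)).toLinearMap ∘ₗ f ∘ₗ TrivSqZeroExt.inrHom k (ℕ →₀ k),
      (TrivSqZeroExt.fstHom k k (ℕ →₀ k)).toLinearMap ∘ₗ f' ∘ₗ TrivSqZeroExt.inrHom k (ℕ →₀ k),
      Finsupp.lapply 0 ∘ₗ (TrivSqZeroExt.sndHom k (ℕ →₀ k)) ∘ₗ f ∘ₗ TrivSqZeroExt.inrHom k (ℕ →₀ k),
      Finsupp.lapply 0 ∘ₗ (TrivSqZeroExt.sndHom k (ℕ →₀ k)) ∘ₗ f' ∘ₗ
        TrivSqZeroExt.inrHom k (ℕ →₀ k)] with hLdef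
    refine ⟨Fin 4, inferInstance, L, fun v hv w => ?_⟩
    have h0 : (f (TrivSqZeroExt.inr v)).fst = 0 := by simpa [hLdef] using congrFun hv 0
    have h1 : (f' (TrivSqZeroExt.inr v)).fst = 0 := by simpa [hLdef] using congrFun hv 1
    have h2 : (f (TrivSqZeroExt.inr v)).snd 0 = 0 := by simpa [hLdef] using congrFun hv 2
    have h3 : (f' (TrivSqZeroExt.inr v)).snd 0 = 0 := by simpa [hLdef] using congrFun hv 3
    have e1 : re (extend (Dual k) ρ β ((1 : Dual k) ⊗ₜ[k] (TrivSqZeroExt.inr v : AA k))) =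
      f (TrivSqZeroExt.inr v) := rfl
    have e2 : im (extend (Dual k) ρ β ((1 : Dual k) ⊗ₜ[k] (TrivSqZeroExt.inr v : AA k))) =
      f' (TrivSqZeroExt.inr v) := rfl
    rw [act2_tmul, im_mul, e1, e2, TrivSqZeroExt.snd_add, TrivSqZeroExt.snd_mul,
      TrivSqZeroExt.snd_mul, h0, h1]
    simp [h2, h3]

theorem act2_one {B : Type v} [Ring B] [Bialgebra k B] (ρ : B →ₐ[k] Module.End k (AA k))
    (x y : (Dual k) ⊗[k] AA k) : act2 (extend (Dual k) ρ) 1 x y = x * y := by
  have h : ∀ z : (Dual k) ⊗[k] AA k, extend (Dual k) ρ 1 z = z := by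
    intro z
    simp only [extend, Algebra.TensorProduct.one_def, LinearMap.liftBaseChange_tmul]
    simp
  rw [Algebra.TensorProduct.one_def, act2_tmul, h, h]

theorem re_act2 {B : Type v} [Ring B] [Bialgebra k B] (ρ : B →ₐ[k] Module.End k (AA k))
    (F : ((Dual k) ⊗[k] B) ⊗[Dual k] ((Dual k) ⊗[k] B))
    (hF : F - 1 ∈ Ideal.span {tt k} •
      (⊤ : Submodule (Dual k) (((Dual k) ⊗[k] B) ⊗[Dual k] ((Dual k) ⊗[k] B))))
    (x y : (Dual k) ⊗[k] AA k) : re (act2 (extend (Dual k) ρ) F x y) = re x * re y := by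
  have h : ∀ G ∈ Ideal.span {tt k} •
      (⊤ : Submodule (Dual k) (((Dual k) ⊗[k] B) ⊗[Dual k] ((Dual k) ⊗[k] B))),
      re (act2 (extend (Dual k) ρ) G x y) = 0 := by
    intro G hG
    refine Submodule.smul_induction_on hG ?_ ?_
    · intro r hr n _
      rw [map_smul, LinearMap.smul_apply, LinearMap.smul_apply, re_smul, fst_of_mem hr, zero_smul]
    · intro G G' h h'
      rw [map_add, LinearMap.add_apply, LinearMap.add_apply, map_add, h, h', add_zero]
  have h2 := h _ hF
  rw [map_sub, LinearMap.sub_apply, LinearMap.sub_apply, map_sub, act2_one, re_mul, sub_eq_zero] at h2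
  exact h2

theorem not_equiv {B : Type v} [Ring B] [Bialgebra k B] (ρ : B →ₐ[k] Module.End k (AA k))
    (F : ((Dual k) ⊗[k] B) ⊗[Dual k] ((Dual k) ⊗[k] B))
    (hF : F - 1 ∈ Ideal.span {tt k} •
      (⊤ : Submodule (Dual k) (((Dual k) ⊗[k] B) ⊗[Dual k] ((Dual k) ⊗[k] B)))) :
    ¬ Equivalent k (Dual k) (Ideal.span {tt k}) (AA k) (mm k) (act2 (extend (Dual k) ρ) F) := by
  rintro ⟨φ, hφ, hmul⟩
  have hre : ∀ x, re (φ x) = re x := by
    intro x
    have := re_of_mem (hφ x)
    rwa [map_sub, sub_eq_zero] at this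
  set φ1 : AA k →ₗ[k] AA k := im ∘ₗ (φ.toLinearMap.restrictScalars k) ∘ₗ
      (TensorProduct.mk k (Dual k) (AA k) 1) with hφ1
  have hφ1' : ∀ a : AA k, im (φ ((1 : Dual k) ⊗ₜ[k] a)) = φ1 a := fun a => rfl
  have hφd : ∀ a : AA k, φ ((1 : Dual k) ⊗ₜ[k] a) =
      (1 : Dual k) ⊗ₜ[k] a + tt k • ((1 : Dual k) ⊗ₜ[k] φ1 a) := by
    intro a
    rw [decomp (φ ((1 : Dual k) ⊗ₜ[k] a)), hre, hφ1']
    simp
  set P := act2 (extend (Dual k) ρ) F with hP
  have key : ∀ a b : AA k, mu1 k a b + φ1 (a * b) =
      im (P ((1 : Dual k) ⊗ₜ[k] a) ((1 : Dual k) ⊗ₜ[k] b)) + a * φ1 b + φ1 a * b := by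
    intro a b
    have h := congrArg im (hmul ((1 : Dual k) ⊗ₜ[k] a) ((1 : Dual k) ⊗ₜ[k] b))
    rw [mm_tmul, map_add, map_add] at h
    have h1 : (tt k * (1 * 1)) ⊗ₜ[k] (mu1 k a b) = tt k • ((1 : Dual k) ⊗ₜ[k] (mu1 k a b)) := by
      rw [TensorProduct.smul_tmul', smul_eq_mul, mul_one]
    rw [h1, map_smul, im_smul, hre, one_mul, hφ1', hφd a, hφd b] at h
    simp only [map_add, map_smul, LinearMap.add_apply, LinearMap.smul_apply, im_smul,
      dfst_tt, dsnd_tt, zero_smul, one_smul, zero_add, re_tmul, map_one] at h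
    rw [hP] at h ⊢
    simp only [re_act2 ρ F hF, re_tmul, map_one, one_smul, re_smul, dfst_tt, zero_smul,
      add_zero] at h
    rw [add_comm, h]
    abel
  obtain ⟨ι, hι, L, hL⟩ := finite_rank ρ F
  set L' : (ℕ →₀ k) →ₗ[k] ((ι ⊕ Fin 2) → k) := LinearMap.pi (Sum.elim
    (fun i => LinearMap.proj i ∘ₗ L)
    ![Finsupp.lapply 0, (TrivSqZeroExt.fstHom k k (ℕ →₀ k)).toLinearMap ∘ₗ φ1 ∘ₗ
      TrivSqZeroExt.inrHom k (ℕ →₀ k)]) with hL'
  have hinj : Function.Injective L' := by
    rw [injective_iff_map_eq_zero]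
    intro v hv
    have h1 : L v = 0 := by
      funext i
      simpa [hL'] using congrFun hv (Sum.inl i)
    have h2 : v 0 = 0 := by simpa [hL'] using congrFun hv (Sum.inr 0)
    have h3 : (φ1 (TrivSqZeroExt.inr v)).fst = 0 := by simpa [hL'] using congrFun hv (Sum.inr 1)
    ext i
    have h4 := key (TrivSqZeroExt.inr v) (TrivSqZeroExt.inr (Finsupp.single i 1))
    rw [mu1_apply, TrivSqZeroExt.inr_mul_inr, map_zero, add_zero, TrivSqZeroExt.snd_inr,
      TrivSqZeroExt.snd_inr, pair_single] at h4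
    have h5 := congrArg (fun a : AA k => a.snd 0) h4
    simp only [TrivSqZeroExt.snd_add, TrivSqZeroExt.snd_inr, Finsupp.add_apply] at h5
    rw [hP, hL v h1, TrivSqZeroExt.snd_mul, TrivSqZeroExt.snd_mul] at h5
    simpa [h2, h3] using h5
  have hfin : Module.Finite k (ℕ →₀ k) := Module.Finite.of_injective L' hinj
  rw [Module.finite_finsupp_self_iff] at hfin
  rcases hfin with h | h
  · exact not_subsingleton k h
  · exact not_finite ℕ

theorem dual_local (k : Type u) [Field k] :
    IsFiniteLocal k (Dual k) (Ideal.span {tt k}) := by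
  refine ⟨inferInstanceAs (IsLocalRing (DualNumber k)),
    DualNumber.maximalIdeal_eq_span_singleton_eps (K := k),
    inferInstanceAs (Module.Finite k (k × k)), ?_, ?_⟩
  · have : (Ideal.span {tt k} : Ideal (Dual k)).IsMaximal :=
      DualNumber.isMaximal_span_singleton_eps (K := k)
    let _ : Field (Dual k ⧸ (Ideal.span {tt k} : Ideal (Dual k))) := Ideal.Quotient.field _
    exact (algebraMap k (Dual k ⧸ (Ideal.span {tt k} : Ideal (Dual k)))).injective
  · intro x
    obtain ⟨r, rfl⟩ := Ideal.Quotient.mk_surjective x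
    refine ⟨dfst r, ?_⟩
    change Ideal.Quotient.mk (Ideal.span {tt k} : Ideal (Dual k)) (algebraMap k (Dual k) (dfst r)) =
      Ideal.Quotient.mk _ r
    rw [Ideal.Quotient.eq, Ideal.mem_span_singleton']
    refine ⟨algebraMap k (Dual k) (-dsnd r), ?_⟩
    apply dual_ext
    · simp
    · have h0 : ∀ c : k, dsnd (algebraMap k (Dual k) c) = 0 := fun c =>
        TrivSqZeroExt.snd_inl (R := k) (M := k) c
      rw [dsnd_mul, map_sub, h0, h0, dsnd_tt, dfst_tt]
      simp

/-- **Disproof of Q1.** Over every field `k` of characteristic zero there are a complete local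
Noetherian `k`-algebra `R` with maximal ideal `I` and residue field `k` (in the proof
`R = k[t]/(t²)`, `I = (t)`), a unital associative `k`-algebra `A` and an `R`-deformation `m` of `A`
which is not equivalent to any deformation coming from a universal deformation formula. -/
theorem result (k : Type u) [Field k] [CharZero k] :
    ∃ (R : Type u) (_ : CommRing R) (_ : Algebra k R) (I : Ideal R),
      IsFiniteLocal k R I ∧
      ∃ (A : Type u) (_ : Ring A) (_ : Algebra k A) (m : Mult k R A),
        IsDeformation k R I A m ∧ NotFromUDF.{u, v} k R I A m :=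
  ⟨Dual k, inferInstance, inferInstance, Ideal.span {tt k}, dual_local k,
    AA k, inferInstance, inferInstance, mm k, mm_isDeformation k,
    fun _ _ _ ρ F _ hF hE => not_equiv ρ F hF.congr_one hE⟩

end Main

end Pool.Agent.Results.MP_8ccf7f_al.NotUDF
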